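import Pool.Agent.H260TZ.Uniq

namespace Pool.Agent.Results.MP_f8bd42_al.NegZero

open Polynomial Pool.Agent.H260TZ

/-- There is an algebra of rank 4 over the integers whose topological subalgebra zeta function
has a zero with negative real part. The witness has basis `e1, e2, m1, m2` (indices 0, 1, 2, 3)
with the only nonzero products of basis elements `e1 * m1 = m1` and `e2 * m2 = m2`. -/
theorem result : ∃ (c : Fin 4 → Fin 4 → Fin 4 → ℤ) (N D : ℚ[X]),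
    (∀ i j k, c i j k = if (i = 0 ∧ j = 2 ∧ k = 2) ∨ (i = 1 ∧ j = 3 ∧ k = 3) then 1 else 0) ∧
    N = 72 * X ^ 4 - 144 * X ^ 3 + 76 * X ^ 2 + 6 * X - 9 ∧
    D = 36 * X ^ 2 * (2 * X - 1) * (X - 1) ^ 5 ∧
    IsTopZeta c N D ∧
    (∀ N' D' : ℚ[X], IsTopZeta c N' D' → N' * D = N * D') ∧
    ∃ s : ℂ, aeval s N = 0 ∧ aeval s D ≠ 0 ∧ s.re < 0 := by
  refine ⟨cc, NT, DT, fun i j k => rfl, rfl, rfl, isTopZeta_cc,
    fun N' D' h => (topZeta_unique h isTopZeta_cc), ?_⟩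
  have hcont : ContinuousOn (fun x : ℝ => 72 * x ^ 4 - 144 * x ^ 3 + 76 * x ^ 2 + 6 * x - 9)
      (Set.Icc (-1 / 2) 0) := by fun_prop
  have hiv := intermediate_value_Icc' (by norm_num : (-1 / 2 : ℝ) ≤ 0) hcont
  have h0 : (0 : ℝ) ∈ Set.Icc
      ((fun x : ℝ => 72 * x ^ 4 - 144 * x ^ 3 + 76 * x ^ 2 + 6 * x - 9) 0)
      ((fun x : ℝ => 72 * x ^ 4 - 144 * x ^ 3 + 76 * x ^ 2 + 6 * x - 9) (-1 / 2)) := by
    constructor <;> norm_num
  obtain ⟨x, hx, hfx⟩ := hiv h0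
  have hfx' : 72 * x ^ 4 - 144 * x ^ 3 + 76 * x ^ 2 + 6 * x - 9 = 0 := hfx
  have hx0 : x < 0 := by
    rcases lt_or_eq_of_le hx.2 with h | h
    · exact h
    · exfalso; rw [h] at hfx'; norm_num at hfx'
  refine ⟨(x : ℂ), ?_, ?_, by simpa using hx0⟩
  · unfold NT
    simp only [map_sub, map_add, map_mul, map_pow, aeval_X, map_ofNat]
    have := congrArg (fun y : ℝ => (y : ℂ)) hfx'
    push_cast at this
    exact this
  · unfold DT
    simp only [map_sub, map_mul, map_pow, aeval_X, map_ofNat, map_one]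
    have hc : (36 * x ^ 2 * (2 * x - 1) * (x - 1) ^ 5 : ℝ) ≠ 0 := by
      refine mul_ne_zero (mul_ne_zero (mul_ne_zero (by norm_num) (pow_ne_zero 2 hx0.ne)) ?_)
        (pow_ne_zero 5 ?_)
      · linarith
      · linarith
    intro h
    apply hc
    have h2 : (((36 * x ^ 2 * (2 * x - 1) * (x - 1) ^ 5 : ℝ)) : ℂ) = 0 := by
      push_cast
      exact h
    exact_mod_cast h2

end Pool.Agent.Results.MP_f8bd42_al.NegZero
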